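import Pool.Agent.Helper68.WC.Col2

/-!
# A lower bound for the threshold bias of the minimum degree game (MP_f3ca85_co)
-/

set_option autoImplicit false

namespace Pool.Agent.Results.MP_f3ca85_co.AllDegrees

open Pool.Agent.Helper68.WC Finset

private theorem card_class {n k : ℕ} [NeZero k] (i : ZMod k) :
    (univ.filter fun z : Fin n => ((z : ℕ) : ZMod k) = i).card = n / k + if i.val % k < n % k then 1 else 0 := by
  have hk : 0 < k := Nat.pos_of_ne_zero (NeZero.ne k)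
  rw [← Nat.count_modEq_card n hk i.val, Nat.count_eq_card_filter_range]
  have hiff : ∀ a : ℕ, (a : ZMod k) = i ↔ a ≡ i.val [MOD k] := by
    intro a
    rw [← ZMod.natCast_eq_natCast_iff, ZMod.natCast_zmod_val]
  refine Finset.card_bij (fun z _ => (z : ℕ)) ?_ ?_ ?_
  · intro z hz
    rw [mem_filter, mem_range]
    exact ⟨z.2, (hiff _).1 (mem_filter.1 hz).2⟩
  · intro a _ b _ hab
    exact Fin.ext hab
  · intro b hb
    rw [mem_filter, mem_range] at hb
    exact ⟨⟨b, hb.1⟩, mem_filter.2 ⟨mem_univ _, (hiff _).2 hb.2⟩, rfl⟩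

/-- The numbers. -/
private theorem num {N m : ℕ} (h1 : 6 * m * N + 6 * N + 31 ≤ 3 * N ^ 2 + m ^ 2) (h2 : 5 * m ≤ 3 * N) (y S : ℕ)
    (hy : y + 2 * (m / 3) ≤ N + 1) (hS : S ≤ m / 3 * y) (hS' : S + (m / 3).choose 2 + m / 3 ≤ m * (m / 3)) :
    y ^ 2 + 2 * S + 2 * m * y + 2 * y ≤ 2 * (N * y) := by
  obtain ⟨T, hT⟩ : ∃ T, T = m / 3 := ⟨_, rfl⟩
  rw [← hT] at hy hS hS'
  obtain ⟨r, hr, hr3⟩ : ∃ r, m = 3 * T + r ∧ r < 3 := ⟨m % 3, by rw [hT]; exact (Nat.div_add_mod m 3).symm, Nat.mod_lt _ (by norm_num)⟩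
  have hch : 2 * T.choose 2 + T = T * T := by
    rw [Nat.choose_two_right]
    have h3 : 2 * (T * (T - 1) / 2) = T * (T - 1) := Nat.mul_div_cancel' (Nat.even_mul_pred_self T).two_dvd
    rw [h3]
    cases T with
    | zero => rfl
    | succ T => rw [Nat.add_sub_cancel]; ring
  have hS2 : (2 : ℤ) * S + T * T + T ≤ 2 * m * T := by
    have : 2 * S + T * T + T ≤ 2 * m * T := by
      have h4 : 2 * m * T = 2 * (m * T) := by ring
      omega
    exact_mod_cast this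
  have hS1 : (S : ℤ) ≤ T * y := by exact_mod_cast hS
  have hy' : (y : ℤ) + 2 * T ≤ N + 1 := by exact_mod_cast hy
  have hrm : (m : ℤ) = 3 * T + r := by exact_mod_cast hr
  have hr0 : (0 : ℤ) ≤ r := Int.natCast_nonneg _
  have hr2 : (r : ℤ) ≤ 2 := by
    have : r ≤ 2 := by omega
    exact_mod_cast this
  have h1' : (6 : ℤ) * m * N + 6 * N + 31 ≤ 3 * N ^ 2 + m ^ 2 := by exact_mod_cast h1
  have h2' : (5 : ℤ) * m ≤ 3 * N := by exact_mod_cast h2
  have hy0 : (0 : ℤ) ≤ y := Int.natCast_nonneg _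
  have hT0 : (0 : ℤ) ≤ T := Int.natCast_nonneg _
  have hNm : 4 * (T : ℤ) ≤ N := by linarith
  -- the bound at the end point
  have hM : (2 : ℤ) * m * T - T - T * T ≤ (N + 1 - 2 * T) * (N - 3 - 2 * m + 2 * T) := by
    have e1 : 3 * ((N + 1 - 2 * T) * (N - 3 - 2 * m + 2 * T) - (2 * m * T - T - T * T) : ℤ) =
        (3 * N ^ 2 + m ^ 2 - 6 * m * N - 6 * N) - 9 - 6 * m + 27 * T - (m - 3 * T) ^ 2 := by ring
    have e2 : ((m : ℤ) - 3 * T) ^ 2 ≤ 4 := by
      rw [hrm]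
      have : (3 * (T : ℤ) + r - 3 * T) ^ 2 = r ^ 2 := by ring
      rw [this]
      nlinarith
    linarith
  have goal : (y : ℤ) ^ 2 + 2 * S + 2 * m * y + 2 * y ≤ 2 * (N * y) := by
    by_cases hc : (y : ℤ) ≤ 2 * (N - 1 - m) - 2 * T
    · have h3 := mul_nonneg hy0 (sub_nonneg.2 hc)
      linarith [show (y : ℤ) * (2 * (N - 1 - m) - 2 * T - y) = 2 * (N * y) - 2 * y - 2 * m * y - 2 * (T * y) - y ^ 2 by ring]
    · push Not at hc
      have h3 : (0 : ℤ) ≤ (N + 1 - 2 * T - y) * (N + 1 - 2 * T + y - 2 * (N - 1 - m)) :=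
        mul_nonneg (by linarith) (by linarith)
      linarith [show ((N : ℤ) + 1 - 2 * T - y) * (N + 1 - 2 * T + y - 2 * (N - 1 - m)) =
        (2 * (N * y) - 2 * y - 2 * m * y - y ^ 2) - (N + 1 - 2 * T) * (N - 3 - 2 * m + 2 * T) by ring]
  exact_mod_cast goal

/-- For every `k ≥ 1` Waiter forces minimum degree `k` if `q ≤ (3 - √6 - ε) n / k` and `n` is large. -/
theorem result : ∀ k : ℕ, 1 ≤ k → ∀ ε : ℝ, 0 < ε → ∃ N : ℕ, ∀ n : ℕ, N ≤ n → ∀ q : ℕ,
    (q : ℝ) ≤ (3 - Real.sqrt 6 - ε) * ((n : ℝ) / k) → WaiterWins n q k := by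
  intro k hk ε hε
  have : NeZero k := ⟨by omega⟩
  have hk0 : (0 : ℝ) < k := by exact_mod_cast hk
  obtain ⟨M, hM⟩ := exists_nat_ge (12 / ε)
  refine ⟨k * (M + 1), fun n hn q hq => ?_⟩
  obtain ⟨N, hN⟩ : ∃ N, N = n / k := ⟨_, rfl⟩
  have hNM : M + 1 ≤ N := by
    rw [hN, Nat.le_div_iff_mul_le hk, mul_comm]
    exact hn
  have hNM' : (M : ℝ) + 1 ≤ N := by exact_mod_cast hNM
  have hεN : 12 ≤ ε * N := by
    have h1 : 12 / ε ≤ N := by linarith
    rw [div_le_iff₀ hε] at h1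
    linarith
  have hN0 : (1 : ℝ) ≤ N := by
    have : (0 : ℝ) ≤ M := Nat.cast_nonneg _
    linarith
  have hnN : (n : ℝ) / k ≤ N + 1 := by
    rw [div_le_iff₀ hk0]
    have h1 : n ≤ (N + 1) * k := by
      rw [hN]
      have h2 := Nat.div_add_mod n k
      have h3 := Nat.mod_lt n (by omega : k > 0)
      have h4 : (n / k + 1) * k = k * (n / k) + k := by ring
      omega
    exact_mod_cast h1
  have hnk0 : 0 ≤ (n : ℝ) / k := by positivity
  set s : ℝ := Real.sqrt 6 with hs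
  have hs2 : s ^ 2 = 6 := Real.sq_sqrt (by norm_num)
  have hs0 : 0 ≤ s := Real.sqrt_nonneg _
  have hs1 : (244 : ℝ) / 100 ≤ s := by
    by_contra hcon
    push Not at hcon
    nlinarith
  have hs3 : s ≤ 3 := by nlinarith
  obtain ⟨m, hm⟩ : ∃ m, m = q + 1 := ⟨_, rfl⟩
  have hmR : (m : ℝ) = q + 1 := by rw [hm]; push_cast; ring
  have hq0 : (0 : ℝ) ≤ q := Nat.cast_nonneg _
  -- an upper bound for m
  have hmN : (m : ℝ) ≤ (3 - s) * N + 2 - ε * N := by
    by_cases hα : 0 ≤ 3 - s - ε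
    · have h1 : (3 - s - ε) * ((n : ℝ) / k) ≤ (3 - s - ε) * (N + 1) := mul_le_mul_of_nonneg_left hnN hα
      have h2 : (3 - s - ε) * ((N : ℝ) + 1) = (3 - s) * N - ε * N + (3 - s) - ε := by ring
      linarith
    · push Not at hα
      have h1 : (3 - s - ε) * ((n : ℝ) / k) ≤ 0 := mul_nonpos_of_nonpos_of_nonneg hα.le hnk0
      have h3 : (q : ℝ) = 0 := le_antisymm (hq.trans h1) hq0
      -- then `n / k = 0`
      have h2 : 0 < (n : ℝ) / k := by
        have h4 : (0 : ℝ) < n := by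
          have h5 : N ≤ n := by rw [hN]; exact Nat.div_le_self n k
          have h6 : (N : ℝ) ≤ n := by exact_mod_cast h5
          linarith
        positivity
      have h4 : (3 - s - ε) * ((n : ℝ) / k) < 0 := mul_neg_of_neg_of_pos hα h2
      linarith
  have h1 : (6 : ℝ) * m * N + 6 * N + 31 ≤ 3 * N ^ 2 + m ^ 2 := by
    have e1 : 3 * (N : ℝ) ^ 2 + m ^ 2 - 6 * m * N = ((3 - s) * N - m) * ((3 + s) * N - m) := by
      have : ((3 - s) * N - m) * ((3 + s) * N - m) = (9 - s ^ 2) * (N : ℝ) ^ 2 + m ^ 2 - 6 * m * N := by ring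
      rw [this, hs2]
      ring
    have e2 : 10 ≤ (3 - s) * N - m := by linarith
    have e3 : 4 * (N : ℝ) ≤ (3 + s) * N - m := by
      have : (0 : ℝ) ≤ (s - 2) * N := mul_nonneg (by linarith) (by linarith)
      linarith
    have e4 : 10 * (4 * (N : ℝ)) ≤ ((3 - s) * N - m) * ((3 + s) * N - m) := mul_le_mul e2 e3 (by linarith) (by linarith)
    linarith
  have h1' : 6 * m * N + 6 * N + 31 ≤ 3 * N ^ 2 + m ^ 2 := by exact_mod_cast h1
  have h2 : (5 : ℝ) * m ≤ 3 * N := by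
    have : (3 - s) * (N : ℝ) ≤ (56 / 100) * N := mul_le_mul_of_nonneg_right (by linarith) (by linarith)
    linarith
  have h2' : 5 * m ≤ 3 * N := by exact_mod_cast h2
  have h3 : m / 3 * 3 ≤ m := Nat.div_mul_le_self m 3
  have key := waiter_phase (n := n) (cl := fun z : Fin n => ((z : ℕ) : ZMod k)) (k := k) (m := m) (N := N) (T := m / 3)
    (ZMod.card k) (by omega) (fun i => by rw [card_class, hN]; omega)
    (fun i => by
      rw [card_class, hN]
      split_ifs <;> omega) (fun y S => num h1' h2' y S) (by omega) (by omega)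
  rw [hm, Nat.add_sub_cancel] at key
  exact key

end Pool.Agent.Results.MP_f3ca85_co.AllDegrees
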