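import Pool.Agent.Helper68.WC.Client2

/-!
# An upper bound for the threshold bias of the minimum degree game (MP_f3ca85_co)
-/

set_option autoImplicit false

namespace Pool.Agent.Results.MP_f3ca85_co.ClientUpper

open Pool.Agent.Helper68.WC

/-- For every `k ≥ 1` Client prevents minimum degree `k` if `q ≥ (2 / (k + √(k ^ 2 + 3)) + ε) n` and `n` is large. -/
theorem result : ∀ k : ℕ, 1 ≤ k → ∀ ε : ℝ, 0 < ε → ∃ N : ℕ, ∀ n : ℕ, N ≤ n → ∀ q : ℕ,
    (2 / (k + Real.sqrt ((k : ℝ) ^ 2 + 3)) + ε) * n ≤ q → ¬ WaiterWins n q k := by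
  intro k hk ε hε
  have hkR : (1 : ℝ) ≤ k := by exact_mod_cast hk
  set r : ℝ := Real.sqrt ((k : ℝ) ^ 2 + 3) with hr
  have hr2 : r ^ 2 = (k : ℝ) ^ 2 + 3 := Real.sq_sqrt (by positivity)
  have hr0 : 0 ≤ r := Real.sqrt_nonneg _
  set c : ℝ := 2 / (k + r) with hc
  have hc0 : 0 < c := by positivity
  have hcc : 4 * k * c + 3 * c ^ 2 = 4 := by
    have h1 : c * (k + r) = 2 := by rw [hc]; field_simp
    have h2 : c * r = 2 - c * k := by linarith
    have h3 : c ^ 2 * r ^ 2 = (2 - c * k) ^ 2 := by rw [← mul_pow, h2]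
    rw [hr2] at h3
    linarith [show (2 - c * k) ^ 2 = 4 - 4 * k * c + c ^ 2 * k ^ 2 by ring]
  set y : ℝ := c + ε with hy
  have hy0 : 0 < y := by positivity
  have hyy : 4 + 4 * ε ≤ 4 * k * y + 3 * y ^ 2 := by
    have h1 : 4 * k * y + 3 * y ^ 2 = (4 * k * c + 3 * c ^ 2) + 4 * (k * ε) + (6 * (c * ε) + 3 * ε ^ 2) := by rw [hy]; ring
    have h2 : ε ≤ k * ε := by nlinarith
    have h3 : 0 ≤ 6 * (c * ε) + 3 * ε ^ 2 := by positivity
    linarith
  obtain ⟨κ, hκ⟩ := exists_nat_ge (2 * y ^ 2 / ε + 2)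
  have hκ2 : (2 : ℝ) ≤ κ := by
    have : 0 ≤ 2 * y ^ 2 / ε := by positivity
    linarith
  have hκ2' : 2 ≤ κ := by exact_mod_cast hκ2
  have hκy : 4 * y ^ 2 / κ ≤ 2 * ε := by
    rw [div_le_iff₀ (by linarith)]
    have h1 : 2 * y ^ 2 / ε ≤ κ := by linarith
    rw [div_le_iff₀ hε] at h1
    linarith
  set R : ℝ := 16 * κ ^ 2 * k + 20 with hR
  have hR0 : 0 < R := by positivity
  obtain ⟨N, hN⟩ := exists_nat_ge (R * y / ε + ((2 * κ + 1) * κ + 2) / y + 2 * κ + 1)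
  refine ⟨N, fun n hn q hq hW => ?_⟩
  have hnR : (N : ℝ) ≤ n := by exact_mod_cast hn
  have p1 : 0 ≤ R * y / ε := by positivity
  have p2 : 0 ≤ ((2 * κ + 1) * κ + 2) / y := by positivity
  have hn1 : R * y ≤ ε * n := by
    have h1 : R * y / ε ≤ n := by linarith
    rw [div_le_iff₀ hε] at h1
    linarith
  have hn2 : (2 * (κ : ℝ) + 1) * κ + 2 ≤ y * n := by
    have h1 : ((2 * κ + 1) * κ + 2) / y ≤ n := by linarith
    rw [div_le_iff₀ hy0] at h1
    linarith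
  have hn3 : 2 * κ < n := by
    have h1 : (2 : ℝ) * κ < n := by linarith
    exact_mod_cast h1
  have hn0 : (0 : ℝ) < n := by
    have : (0 : ℝ) ≤ 2 * κ := by positivity
    linarith
  -- the parameters
  have hm1 : (2 * κ + 1) * κ + 2 ≤ q + 1 := by
    have h1 : (2 * (κ : ℝ) + 1) * κ + 2 ≤ q + 1 := by linarith
    exact_mod_cast h1
  set m : ℕ := q + 1 with hm
  obtain ⟨s, hs⟩ : ∃ s : ℕ, s = m / κ + 1 := ⟨_, rfl⟩
  have hκ0 : 0 < κ := by omega
  have hs1 : m < κ * s := by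
    rw [hs]
    have h1 := Nat.lt_succ_self (m / κ)
    have h2 := Nat.div_add_mod m κ
    have h3 := Nat.mod_lt m hκ0
    rw [Nat.mul_add]
    omega
  have hs2 : κ * s ≤ m + κ := by
    rw [hs, Nat.mul_add]
    have := Nat.mul_div_le m κ
    omega
  have hsm : s ≤ m := by
    rw [hs]
    have h1 : m / κ ≤ m / 2 := Nat.div_le_div_left hκ2' (by norm_num)
    omega
  obtain ⟨L, hL⟩ : ∃ L : ℕ, L = m - s := ⟨_, rfl⟩
  have hLs : L + s = m := by omega
  have h1 : κ * L + m ≤ κ * m := by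
    rw [← hLs, Nat.mul_add]
    omega
  have h2 : L * (2 * κ + 1) + 2 * m < m * (2 * κ + 1) := by
    have h3 : m * (2 * κ + 1) = L * (2 * κ + 1) + (2 * (κ * s) + s) := by
      rw [← hLs]
      ring
    omega
  have h3 : (2 * κ + 1).choose 2 < m := by
    rw [Nat.choose_two_right, Nat.add_sub_cancel]
    have h4 : (2 * κ + 1) * (2 * κ) / 2 = (2 * κ + 1) * κ := by
      rw [show (2 * κ + 1) * (2 * κ) = (2 * κ + 1) * κ * 2 by ring, Nat.mul_div_cancel _ (by norm_num)]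
    omega
  obtain ⟨_, h4⟩ := client_ineq (d := 2 * κ) (by omega) h1 h2 h3 hn3 (by omega) hW
  rw [← hm] at h4
  have h5 : 4 * (m * (k * n)) + 4 * L * m ≤ 4 * (n * n) + 8 * (κ * (m * (k * (2 * κ)))) + 16 * m + m ^ 2 := by
    have : n * (n - 1) ≤ n * n := Nat.mul_le_mul_left _ (Nat.sub_le _ _)
    omega
  have h5' : 4 * ((m : ℝ) * (k * n)) + 4 * L * m ≤ 4 * (n * n) + 8 * (κ * (m * (k * (2 * κ)))) + 16 * m + m ^ 2 := by
    exact_mod_cast h5
  have hLs' : (L : ℝ) + s = m := by exact_mod_cast hLs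
  have hs2' : (κ : ℝ) * s ≤ m + κ := by exact_mod_cast hs2
  have hm0 : (0 : ℝ) < m := by
    have : 0 < m := by omega
    exact_mod_cast this
  have hs3 : (s : ℝ) ≤ m / κ + 1 := by
    have h6 : (s : ℝ) ≤ (m + κ) / κ := by
      rw [le_div_iff₀ (by linarith)]
      linarith
    have h7 : ((m : ℝ) + κ) / κ = m / κ + 1 := by field_simp
    linarith
  have hL3 : (m : ℝ) - m / κ - 1 ≤ L := by linarith
  have h6 : (m : ℝ) * (4 * k * n + (3 - 4 / κ) * m - R) ≤ 4 * (n * n) := by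
    have h7 : 4 * ((m : ℝ) - m / κ - 1) * m ≤ 4 * L * m := by
      have := mul_le_mul_of_nonneg_right hL3 hm0.le
      linarith
    have h8 : 4 * ((m : ℝ) - m / κ - 1) * m = m * ((4 - 4 / κ) * m - 4) := by ring
    have h9 : (m : ℝ) * (4 * k * n + (3 - 4 / κ) * m - R) =
      4 * (m * (k * n)) + m * ((4 - 4 / κ) * m - 4) - m ^ 2 - 8 * (κ * (m * (k * (2 * κ)))) - 16 * m := by
      rw [hR]
      ring
    linarith
  have hmy : y * n ≤ m := by
    have : (m : ℝ) = q + 1 := by rw [hm]; push_cast; ring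
    linarith
  have h34 : 0 ≤ 3 - 4 / (κ : ℝ) := by
    have : 4 / (κ : ℝ) ≤ 2 := by
      rw [div_le_iff₀ (by linarith)]
      linarith
    linarith
  have h7 : (4 + ε) * n ≤ y * (4 * k * n + (3 - 4 / κ) * (y * n) - R) := by
    have h8 : y * (4 * k * n + (3 - 4 / κ) * (y * n) - R) = (4 * k * y + 3 * y ^ 2 - 4 * y ^ 2 / κ) * n - R * y := by ring
    have h9 : (4 + 2 * ε) * n ≤ (4 * k * y + 3 * y ^ 2 - 4 * y ^ 2 / κ) * n :=
      mul_le_mul_of_nonneg_right (by linarith) hn0.le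
    rw [h8]
    linarith
  have h8 : 4 * (k : ℝ) * n + (3 - 4 / κ) * (y * n) - R ≤ 4 * k * n + (3 - 4 / κ) * m - R := by
    have := mul_le_mul_of_nonneg_left hmy h34
    linarith
  have h9 : 0 < 4 * (k : ℝ) * n + (3 - 4 / κ) * (y * n) - R := by
    have h10 : 0 < (4 + ε) * n := by positivity
    by_contra hcon
    push Not at hcon
    have := mul_nonpos_of_nonneg_of_nonpos hy0.le hcon
    linarith
  have h10 : (y * n) * (4 * k * n + (3 - 4 / κ) * (y * n) - R) ≤ m * (4 * k * n + (3 - 4 / κ) * m - R) :=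
    mul_le_mul hmy h8 h9.le hm0.le
  have h11 : (4 + ε) * n * n ≤ (y * n) * (4 * k * n + (3 - 4 / κ) * (y * n) - R) := by
    have := mul_le_mul_of_nonneg_right h7 hn0.le
    linarith [show y * (4 * k * n + (3 - 4 / κ) * (y * n) - R) * n = (y * n) * (4 * k * n + (3 - 4 / κ) * (y * n) - R) by ring]
  have h12 : 0 < ε * n * n := by positivity
  linarith

end Pool.Agent.Results.MP_f3ca85_co.ClientUpper
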