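import Pool.Agent.Helper68.WC.Thr

/-!
# The threshold bias of the minimum degree game for large `k` (MP_f3ca85_co)
-/

set_option autoImplicit false

namespace Pool.Agent.Results.MP_f3ca85_co.LargeDegree

open Pool.Agent.Helper68.WC

private theorem error_le {δ : ℝ} (hδ : 0 < δ) {k : ℕ} (hk1 : 1 ≤ k) (hk : (30 / δ) ^ 4 ≤ (k : ℝ)) :
    (⌈Real.sqrt k⌉₊ : ℝ) * (9 + Real.log (2 * k)) + 2 ≤ δ * k := by
  have hkR : (1 : ℝ) ≤ k := by exact_mod_cast hk1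
  set s : ℝ := Real.sqrt (Real.sqrt k) with hs
  have hs0 : 0 ≤ s := Real.sqrt_nonneg _
  have hs2 : s ^ 2 = Real.sqrt k := Real.sq_sqrt (Real.sqrt_nonneg _)
  have hs4 : s ^ 4 = k := by
    have : s ^ 4 = (s ^ 2) ^ 2 := by ring
    rw [this, hs2, Real.sq_sqrt (by linarith)]
  have hs1 : 1 ≤ s := by
    by_contra hcon
    push Not at hcon
    have : s ^ 4 < 1 := pow_lt_one₀ hs0 hcon (by norm_num)
    linarith
  have hsδ : 30 ≤ δ * s := by
    have h1 : 30 / δ ≤ s := by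
      by_contra hcon
      push Not at hcon
      have : s ^ 4 < (30 / δ) ^ 4 := pow_lt_pow_left₀ hcon hs0 (by norm_num)
      linarith
    rw [div_le_iff₀ hδ] at h1
    linarith
  have hlog : Real.log (2 * k) ≤ 1 + 4 * s := by
    rw [← hs4, Real.log_mul (by norm_num) (by positivity), Real.log_pow]
    have h1 := Real.log_le_sub_one_of_pos (x := s) (by linarith)
    have h2 := Real.log_two_lt_d9
    push_cast
    linarith
  have hlog0 : 0 ≤ Real.log (2 * k) := Real.log_nonneg (by linarith)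
  have hceil : (⌈Real.sqrt k⌉₊ : ℝ) ≤ 2 * s ^ 2 := by
    rw [hs2]
    have h1 := Nat.ceil_lt_add_one (Real.sqrt_nonneg (k : ℝ))
    have h2 : 1 ≤ Real.sqrt k := Real.one_le_sqrt.2 hkR
    linarith
  calc (⌈Real.sqrt k⌉₊ : ℝ) * (9 + Real.log (2 * k)) + 2 ≤ (2 * s ^ 2) * (9 + (1 + 4 * s)) + 2 := by
        have := mul_le_mul hceil (by linarith : 9 + Real.log (2 * k) ≤ 9 + (1 + 4 * s)) (by linarith) (by positivity)
        linarith
    _ ≤ 30 * s ^ 3 := by nlinarith [mul_nonneg hs0 hs0, mul_nonneg (mul_nonneg hs0 hs0) (sub_nonneg.2 hs1), pow_le_pow_left₀ (by norm_num : (0 : ℝ) ≤ 1) hs1 3]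
    _ ≤ (δ * s) * s ^ 3 := mul_le_mul_of_nonneg_right hsδ (by positivity)
    _ = δ * s ^ 4 := by ring
    _ = δ * k := by rw [hs4]

/-- Waiter forces minimum degree at least `k` if `(q + 1) (k + ⌈√k⌉ (9 + log (2 k)) + 2) ≤ n - 1`. Hence the threshold bias of
the game is `(1 + o(1)) n / k` when `k` and `n / k` tend to infinity. -/
theorem result :
    (∀ n k q : ℕ, 1 ≤ k → ((q : ℝ) + 1) * (k + ⌈Real.sqrt k⌉₊ * (9 + Real.log (2 * k)) + 2) ≤ n - 1 → WaiterWins n q k) ∧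
    ∀ ε : ℝ, 0 < ε → ∃ K : ℕ, ∀ k n : ℕ, K ≤ k → K * k ≤ n →
      ∃ t : ℕ, IsGreatest {q : ℕ | 1 ≤ q ∧ WaiterWins n q k} t ∧
        (1 - ε) * ((n : ℝ) / k) ≤ t ∧ (t : ℝ) ≤ (1 + ε) * ((n : ℝ) / k) := by
  have hA : ∀ n k q : ℕ, 1 ≤ k → ((q : ℝ) + 1) * (k + ⌈Real.sqrt k⌉₊ * (9 + Real.log (2 * k)) + 2) ≤ n - 1 →
      WaiterWins n q k := by
    intro n k q hk h
    have hkR : (1 : ℝ) ≤ k := by exact_mod_cast hk
    have h1 : 1 ≤ Real.sqrt k := Real.one_le_sqrt.2 hkR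
    have h2 : Real.sqrt k ≤ ⌈Real.sqrt k⌉₊ := Nat.le_ceil _
    refine waiter_wins hk (Nat.ceil_pos.2 (by linarith)) ?_ h
    have h3 : (k : ℝ) ≤ (⌈Real.sqrt k⌉₊ : ℝ) ^ 2 := by
      calc (k : ℝ) = Real.sqrt k ^ 2 := (Real.sq_sqrt (by linarith)).symm
        _ ≤ _ := pow_le_pow_left₀ (Real.sqrt_nonneg _) h2 2
    exact_mod_cast h3
  refine ⟨hA, fun ε hε => ?_⟩
  set δ : ℝ := min ε 1 / 2 with hδ
  have hδ0 : 0 < δ := by positivity
  have hδε : 2 * δ ≤ ε := by rw [hδ]; have := min_le_left ε 1; linarith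
  have hδ1 : 2 * δ ≤ 1 := by rw [hδ]; have := min_le_right ε 1; linarith
  obtain ⟨K, hK⟩ := exists_nat_ge ((30 / δ) ^ 4 + 6 / δ + 6)
  have h30 : 0 ≤ (30 / δ) ^ 4 := by positivity
  have h6 : 0 ≤ 6 / δ := by positivity
  refine ⟨K, fun k n hk hn => ?_⟩
  have hKR : (6 : ℝ) ≤ K := by linarith
  have hkK : (K : ℝ) ≤ k := by exact_mod_cast hk
  have hk0 : (0 : ℝ) < k := by linarith
  have hk1 : 1 ≤ k := by exact_mod_cast (by linarith : (1 : ℝ) ≤ k)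
  have hnR : (K : ℝ) * k ≤ n := by exact_mod_cast hn
  have hn0 : (0 : ℝ) < n := by nlinarith
  have hnk : (K : ℝ) ≤ (n : ℝ) / k := by rw [le_div_iff₀ hk0]; exact hnR
  -- the bias
  set x : ℝ := ((n : ℝ) - 1) / ((1 + δ) * k) with hx
  have hden : 0 < (1 + δ) * k := by positivity
  have hnk1 : (1 : ℝ) / k ≤ 1 := by rw [div_le_one hk0]; linarith
  have hxlow : (1 - δ) * ((n : ℝ) / k) - 1 ≤ x := by
    have h1 : x = ((n : ℝ) / k - 1 / k) / (1 + δ) := by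
      rw [hx]
      field_simp
    rw [h1, le_div_iff₀ (by positivity)]
    have h2 : 0 ≤ (n : ℝ) / k := by positivity
    have h3 : 0 ≤ δ ^ 2 * ((n : ℝ) / k) := by positivity
    linarith [show ((1 - δ) * ((n : ℝ) / k) - 1) * (1 + δ) = (n : ℝ) / k - δ ^ 2 * ((n : ℝ) / k) - 1 - δ by ring]
  have h6δ : 6 ≤ δ * ((n : ℝ) / k) := by
    have h1 : 6 / δ ≤ (n : ℝ) / k := by linarith
    rw [div_le_iff₀ hδ0] at h1
    linarith
  have hx2 : 2 ≤ x := by nlinarith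
  have hfl : 2 ≤ ⌊x⌋₊ := Nat.le_floor (by exact_mod_cast hx2)
  have hq : WaiterWins n (⌊x⌋₊ - 1) k := by
    apply hA n k _ hk1
    have h1 : (((⌊x⌋₊ - 1 : ℕ) : ℝ) + 1) = (⌊x⌋₊ : ℝ) := by
      rw [Nat.cast_sub (by omega)]
      push_cast
      ring
    rw [h1]
    have h2 : (⌊x⌋₊ : ℝ) ≤ x := Nat.floor_le (by linarith)
    have h3 := error_le hδ0 hk1 (by linarith : (30 / δ) ^ 4 ≤ (k : ℝ))
    have h4 : (0 : ℝ) ≤ (⌈Real.sqrt k⌉₊ : ℝ) * (9 + Real.log (2 * k)) := by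
      have : 0 ≤ Real.log (2 * k) := Real.log_nonneg (by linarith)
      positivity
    calc (⌊x⌋₊ : ℝ) * (k + ⌈Real.sqrt k⌉₊ * (9 + Real.log (2 * k)) + 2) ≤ x * ((1 + δ) * k) := by
          apply mul_le_mul h2 _ (by linarith) (by linarith)
          linarith
      _ = n - 1 := by rw [hx]; field_simp
  have hub : ∀ q : ℕ, WaiterWins n q k → (q : ℝ) ≤ (1 + ε) * ((n : ℝ) / k) := by
    intro q hq'
    have h1 := upper_trivial hq'
    have h2 : ((q : ℝ) + 1) * (k * n) ≤ n * n + 2 * q := by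
      have h3 : (q + 1) * (k * n) ≤ n * n + 2 * q := by
        refine h1.trans (Nat.add_le_add_right (Nat.mul_le_mul_left n (Nat.sub_le n 1)) _)
      exact_mod_cast h3
    rw [← mul_div_assoc, le_div_iff₀ hk0]
    have h4 : 2 * (1 + ε) ≤ ε * (k * n) := by
      have h5 : 6 ≤ ε * n := by
        have h7 : (n : ℝ) / k ≤ n := div_le_self hn0.le (by linarith)
        nlinarith
      have h6' : (6 : ℝ) ≤ k := by linarith
      have h7 : (6 : ℝ) ≤ n := by nlinarith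
      have h8 : (36 : ℝ) ≤ k * n := by nlinarith
      have h9 : 36 * ε ≤ ε * (k * n) := by nlinarith
      have h10 : 36 ≤ ε * (k * n) := by nlinarith
      linarith
    by_contra hcon
    push Not at hcon
    have h7 : (0 : ℝ) ≤ q := Nat.cast_nonneg q
    have h8 : ε * (k * n) * ((q : ℝ) * k) - 2 * (1 + ε) * ((q : ℝ) * k) ≥ 0 := by
      have := mul_le_mul_of_nonneg_right h4 (by positivity : (0 : ℝ) ≤ q * k)
      linarith
    -- `q k n ≤ n ^ 2 + 2 q`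
    have h9 : (q : ℝ) * k * n ≤ n * n + 2 * q := by nlinarith
    have h10 : (1 + ε) * ((q : ℝ) * k * n) ≤ (1 + ε) * (n * n) + 2 * (1 + ε) * q := by nlinarith
    have h11 : (1 + ε) * n * n < (q : ℝ) * k * n := mul_lt_mul_of_pos_right hcon hn0
    have h12 : 2 * (1 + ε) * q ≤ ε * (k * n) * q := mul_le_mul_of_nonneg_right h4 h7
    nlinarith
  have hne : {q : ℕ | 1 ≤ q ∧ WaiterWins n q k}.Nonempty := ⟨⌊x⌋₊ - 1, by omega, hq⟩
  have hbd : BddAbove {q : ℕ | 1 ≤ q ∧ WaiterWins n q k} := by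
    refine ⟨⌈(1 + ε) * ((n : ℝ) / k)⌉₊, fun q hq' => ?_⟩
    have h1 := (hub q hq'.2).trans (Nat.le_ceil _)
    exact_mod_cast h1
  refine ⟨sSup {q : ℕ | 1 ≤ q ∧ WaiterWins n q k}, ⟨Nat.sSup_mem hne hbd, fun q hq' => le_csSup hbd hq'⟩, ?_,
    hub _ (Nat.sSup_mem hne hbd).2⟩
  have h1 : ⌊x⌋₊ - 1 ≤ sSup {q : ℕ | 1 ≤ q ∧ WaiterWins n q k} := le_csSup hbd ⟨by omega, hq⟩
  have h2 : ((⌊x⌋₊ - 1 : ℕ) : ℝ) ≤ (sSup {q : ℕ | 1 ≤ q ∧ WaiterWins n q k} : ℕ) := by exact_mod_cast h1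
  have h3 : x - 1 < (⌊x⌋₊ : ℝ) := Nat.sub_one_lt_floor x
  rw [Nat.cast_sub (by omega)] at h2
  push_cast at h2
  nlinarith

end Pool.Agent.Results.MP_f3ca85_co.LargeDegree
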